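import Pool.Agent.H84.KB.Fin
import Pool.Agent.H84.EV.Avg

/-!
MP_dd013b_lc (the K best solutions of random problems): the weights may have common heavy values.
-/

set_option autoImplicit false

namespace Pool.Agent.H84.KV

open Finset

open Pool.Agent.H92.SR hiding nb box card_box

open Pool.Agent.H92.SR.Tr

open Pool.Agent.H84.TS (mix sf_sq)

open Pool.Agent.H84.KB

open Pool.Agent.H84.EV (AH AH_sub mass avgH avgP)

open Pool.Agent.H84.OS (val lst out val_mix val_le val_lst meanW sup kls reps choose_pow4 clsO clsO_mem clsO_sqf kls_card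
  bsz_leO)

variable {n : ℕ}

theorem sf_mul_sq {c x : ℕ} (hc : c ≠ 0) : sf (c ^ 2 * x) = sf x := by
  rcases Nat.eq_zero_or_pos x with h | h
  · rw [h, mul_zero]
  · exact Pool.Agent.H41.RC.sf_eq (by positivity) h.ne' ⟨c * x, by ring⟩

theorem clsO_card2 {ρ : ℕ} {G : Finset (Fin n)} {x : Fin n → ℕ}
    (hρ : ((univ \ G).image fun i => sf (x i)).card ≤ ρ) (c : Fin n → ℕ) :
    (clsO c x).card ≤ (kls G c x).card + ρ + 2 := by
  have h0 : clsO c x ⊆ {1, sf 0} ∪ (kls G c x ∪ (univ \ G).image fun i => sf (x i)) := by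
    intro d hd
    unfold clsO at hd
    rw [mem_insert, mem_insert] at hd
    rw [mem_union, mem_union, mem_insert, mem_singleton]
    by_cases h1 : d = 1 ∨ d = sf 0
    · exact Or.inl h1
    · right
      rw [not_or] at h1
      rcases hd with h | h | h
      · exact absurd h h1.1
      · exact absurd h h1.2
      · rw [mem_image] at h
        obtain ⟨i, hi, hid⟩ := h
        by_cases hG : i ∈ G
        · left
          unfold kls
          rw [mem_sdiff, mem_insert, mem_singleton, not_or, mem_image]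
          exact ⟨⟨i, mem_inter.2 ⟨hi, hG⟩, hid⟩, h1⟩
        · right
          rw [mem_image]
          refine ⟨i, mem_sdiff.2 ⟨mem_univ _, hG⟩, ?_⟩
          rw [← hid]
          exact (sf_mul_sq (mem_filter.1 hi).2).symm
  have h1 := (Finset.card_le_card h0).trans (Finset.card_union_le _ _)
  have h2 := Finset.card_union_le (kls G c x) ((univ \ G).image fun i => sf (x i))
  have h4 : ({1, sf 0} : Finset ℕ).card ≤ 2 := Finset.card_le_two
  omega

open Classical in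
theorem mainKG : ∃ (c : Prog) (T : List ℕ → ℤ → ℕ) (q : Polynomial ℕ) (Λ : ℕ), 1 ≤ Λ ∧
    (∀ (L : List ℕ) (k : ℤ), Eval c (Pool.Agent.H8.SS.encS L k)
      (bit (decide ((k : ℝ) ≤ (L.map fun a : ℕ => √(a : ℝ)).sum))) (T L k)) ∧
    ∀ (n r s ρ K : ℕ) (A : Fin n → Finset ℕ) (w : Fin n → ℕ → ℝ) (θ : ℝ), Nat.size r ≤ s →
      (∀ i, ∀ a ∈ A i, Nat.size a ≤ s ∧ 0 ≤ w i a) → (∀ i, ∑ a ∈ A i, w i a = 1) → 0 ≤ θ →
      ∀ G : Finset (Fin n), (∀ i ∈ G, ∀ a ∈ A i, w i a ≤ θ) →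
      (∀ x : Fin n → ℕ, (∀ i, x i ∈ A i) → ((univ \ G).image fun i => sf (x i)).card ≤ ρ) →
      ∀ (σ : Bool) (F : Set (Fin n → ℕ)),
      (∀ m : ℕ, ∑ x ∈ (Fintype.piFinset A).filter (fun x => ∃ (c : Fin n → ℕ) (k : ℤ), Best σ K F c x ∧
          (∀ i, c i ≤ r) ∧ q.eval (n + s + Nat.size k.natAbs) * Λ ^ (m + ρ) < T (lst c x) k),
        ∏ i, w i (x i) ≤ K * (4 * (n + 1) * (r + 1) * θ) ^ m) ∧
      (8 * Λ * (n + 1) * (r + 1) * θ ≤ 1 →
        ∀ (B : ℕ) (g : (Fin n → ℕ) → Fin n → ℕ) (k : (Fin n → ℕ) → ℤ),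
        (∀ x ∈ Fintype.piFinset A, Best σ K F (g x) x ∧ (∀ i, g x i ≤ r) ∧ Nat.size (k x).natAbs ≤ B) →
        ∑ x ∈ Fintype.piFinset A, (∏ i, w i (x i)) * (T (lst (g x) x) (k x) : ℝ) ≤
          ((K * q.eval (n + s + B) * Λ ^ ρ : ℕ) : ℝ)) := by
  obtain ⟨c, T, q, Λ0, hΛ0, hE, hT, hT2⟩ := Pool.Agent.H84.OB.timD
  obtain ⟨c', q', h'⟩ := Pool.Agent.H8.SS.ge0 c T hE
  choose T' hT' hE' using h'
  obtain ⟨qq, hqq⟩ : ∃ qq : Polynomial ℕ, ∀ y, qq.eval y =
      q.eval (3 * (y + 1) ^ 2) * Λ0 ^ 2 + q'.eval (3 * (y + 1) ^ 2) := by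
    refine ⟨q.comp (Polynomial.C 3 * (Polynomial.X + 1) ^ 2) * Polynomial.C (Λ0 ^ 2) +
      q'.comp (Polynomial.C 3 * (Polynomial.X + 1) ^ 2), fun y => ?_⟩
    rw [Polynomial.eval_add, Polynomial.eval_mul, Polynomial.eval_comp, Polynomial.eval_comp,
      Polynomial.eval_C, Polynomial.eval_mul, Polynomial.eval_C,
      Polynomial.eval_pow, Polynomial.eval_add, Polynomial.eval_X, Polynomial.eval_one]
  have hev2 : ∀ y, (qq * Polynomial.C (1 + 3 * Λ0)).eval y = qq.eval y * (1 + 3 * Λ0) := fun y => by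
    rw [Polynomial.eval_mul, Polynomial.eval_C]
  refine ⟨c', T', qq * Polynomial.C (1 + 3 * Λ0), Λ0, hΛ0, hE',
    fun n r s ρ K A w θ hrs hAw hw1 hθ G hwθ hGc σ F => ?_⟩
  have hΛR : (1 : ℝ) ≤ Λ0 := by exact_mod_cast hΛ0
  have hr2 : r < 2 ^ s := (Nat.lt_size_self r).trans_le (Nat.pow_le_pow_right (by norm_num) hrs)
  have hx_lt : ∀ x ∈ Fintype.piFinset A, ∀ i, x i < 2 ^ s := fun x hx i =>
    (Nat.lt_size_self _).trans_le (Nat.pow_le_pow_right (by norm_num) (hAw i _ (Fintype.mem_piFinset.1 hx i)).1)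
  obtain ⟨L, hL⟩ : ∃ L, L = 2 ^ s := ⟨_, rfl⟩
  have hLb : ∀ z ∈ Fintype.piFinset A, ∀ i, √(z i : ℝ) ≤ (L : ℕ) := by
    intro z hz i
    rw [Real.sqrt_le_left (Nat.cast_nonneg _)]
    have h2 := hx_lt z hz i
    have h3 : z i ≤ L ^ 2 := by
      rw [← hL] at h2
      calc z i ≤ L := h2.le
        _ ≤ L ^ 2 := by
          rw [sq]
          exact Nat.le_mul_self L
    exact_mod_cast h3
  obtain ⟨b, hb⟩ : ∃ b, b = n + 2 * s + 3 := ⟨_, rfl⟩
  have hb2 : 8 * (n * r * L + 1) ≤ 2 ^ b := by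
    have a1 : n + 1 ≤ 2 ^ n := Nat.lt_two_pow_self
    have a2 : n * r * L + 1 ≤ (n + 1) * (2 ^ s * 2 ^ s) := by
      have a3 : r * L ≤ 2 ^ s * 2 ^ s := by
        rw [hL]
        exact Nat.mul_le_mul_right _ hr2.le
      have a4 : 1 ≤ 2 ^ s * 2 ^ s := Nat.one_le_iff_ne_zero.2 (by positivity)
      calc n * r * L + 1 = n * (r * L) + 1 := by ring
        _ ≤ n * (2 ^ s * 2 ^ s) + 2 ^ s * 2 ^ s := Nat.add_le_add (Nat.mul_le_mul_left _ a3) a4
        _ = (n + 1) * (2 ^ s * 2 ^ s) := by ring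
    calc 8 * (n * r * L + 1) ≤ 8 * (2 ^ n * (2 ^ s * 2 ^ s)) :=
          Nat.mul_le_mul_left _ (a2.trans (Nat.mul_le_mul_right _ a1))
      _ = 2 ^ b := by
          rw [hb, show n + 2 * s + 3 = n + (s + s) + 3 by ring, pow_add, pow_add, pow_add]
          ring
  -- the time for a solution and a threshold
  have hcl : ∀ x ∈ Fintype.piFinset A, ∀ (c : Fin n → ℕ) (k : ℤ) (m : ℕ), (∀ i, c i ≤ r) →
      ((kls G c x).card ≤ m ∨ 1 ≤ |val c x - (k.natAbs : ℕ)| * 2 ^ (1 + b * 4 ^ (m + 1))) →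
      T' (lst c x) k ≤ qq.eval (n + s + Nat.size k.natAbs) * Λ0 ^ (m + ρ) := by
    intro x hx c k m hr hm
    obtain ⟨κ, hκ⟩ : ∃ κ, κ = Nat.size k.natAbs := ⟨_, rfl⟩
    obtain ⟨P, hP⟩ : ∃ P, P = 3 * (n + s + κ + 1) ^ 2 := ⟨_, rfl⟩
    have hcs : ∀ i, c i < 2 ^ s := fun i => (hr i).trans_lt hr2
    have hsz : bsz (lst c x) k.natAbs + (b + κ) ≤ P := by
      have h1 : ((lst c x).map Nat.size).sum + (lst c x).length + Nat.size 0 ≤ n * (3 * s + 1) + s := by
        have := bsz_leO (k := 0) hcs (fun i => hx_lt x hx i) (by rw [Nat.size_zero]; exact Nat.zero_le _)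
        unfold bsz at this
        omega
      have a8 : P = 3 * n * n + 3 * s * s + 3 * κ * κ + 3 + 6 * n * s + 6 * n * κ + 6 * s * κ + 6 * n + 6 * s + 6 * κ := by
        rw [hP]; ring
      have a9 : n * (3 * s + 1) = 3 * n * s + n := by ring
      have a10 : 6 * n * s = 3 * n * s + 3 * n * s := by ring
      unfold bsz
      rw [← hκ]
      omega
    have hTb : T (lst c x) k.natAbs ≤ q.eval P * Λ0 ^ (m + ρ + 2) := by
      rcases hm with hm | hm
      · have h2 := hT2 (lst c x) k.natAbs (b + κ) (clsO c x) (clsO_mem _ _) (mem_insert_self _ _) (clsO_sqf _ _) (by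
          have a4 := val_le hr (hLb x hx)
          have hbb : (2 : ℝ) ^ b ≤ 2 ^ (b + κ) := pow_le_pow_right₀ (by norm_num) (Nat.le_add_right _ _)
          have a5 : (8 : ℝ) * (n * r * (L : ℕ) + 1) ≤ 2 ^ b := by exact_mod_cast hb2
          have a6 : (8 : ℝ) * (k.natAbs : ℕ) ≤ 2 ^ (b + κ) := by
            have h5 : 8 * k.natAbs ≤ 2 ^ (b + κ) := by
              calc 8 * k.natAbs ≤ 2 ^ 3 * 2 ^ κ := by
                    refine Nat.mul_le_mul (by norm_num) ?_
                    rw [hκ]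
                    exact (Nat.lt_size_self _).le
                _ = 2 ^ (3 + κ) := (pow_add _ _ _).symm
                _ ≤ 2 ^ (b + κ) := Nat.pow_le_pow_right (by norm_num) (by omega)
            exact_mod_cast h5
          rw [val_lst]
          have b6 : (0 : ℝ) ≤ n * r * (L : ℕ) := by positivity
          linarith)
        have h3 := clsO_card2 (hGc x (Fintype.mem_piFinset.1 hx)) c
        exact h2.trans (Nat.mul_le_mul (poly_mono q hsz) (Nat.pow_le_pow_right hΛ0 (by omega)))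
      · have hsep : 1 ≤ |EE (lst c x) k.natAbs| * 2 ^ (1 + b * 4 ^ (m + 1)) := by
          unfold EE
          rw [val_lst]
          exact hm
        exact (hT _ _ b (m + 1) hsep).trans
          (Nat.mul_le_mul (poly_mono q (by omega)) (Nat.pow_le_pow_right hΛ0 (by omega)))
    have hΛm : 1 ≤ Λ0 ^ (m + ρ) := Nat.one_le_pow _ _ hΛ0
    rw [← hκ, hqq, ← hP]
    calc T' (lst c x) k ≤ T (lst c x) k.natAbs + q'.eval P := by
          refine (hT' _ _).trans (Nat.add_le_add_left (poly_mono q' ?_) _)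
          exact (Nat.le_add_right _ _).trans hsz
      _ ≤ q.eval P * Λ0 ^ (m + ρ + 2) + q'.eval P * Λ0 ^ (m + ρ) :=
          Nat.add_le_add hTb (Nat.le_mul_of_pos_right _ hΛm)
      _ = (q.eval P * Λ0 ^ 2 + q'.eval P) * Λ0 ^ (m + ρ) := by
          rw [pow_add Λ0 (m + ρ) 2]
          ring
  have hnb : ∀ x ∈ Fintype.piFinset A, ∀ (c : Fin n → ℕ) (k : ℤ) (m : ℕ), Best σ K F c x → (∀ i, c i ≤ r) →
      ¬ BadK G σ K F r b m x → T' (lst c x) k ≤ qq.eval (n + s + Nat.size k.natAbs) * Λ0 ^ (m + ρ) := by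
    intro x hx c k m hS hr hbad
    refine hcl x hx c k m hr ?_
    by_contra hcon
    rw [not_or, not_le, not_le] at hcon
    exact hbad ⟨k.natAbs, c, hS, hr, hcon.1.le, hcon.2⟩
  have hWn : ∀ x ∈ Fintype.piFinset A, 0 ≤ ∏ i, w i (x i) := fun x hx =>
    Finset.prod_nonneg fun i _ => (hAw i _ (Fintype.mem_piFinset.1 hx i)).2
  have hW1 : ∑ x ∈ Fintype.piFinset A, ∏ i, w i (x i) = 1 := by
    rw [← Finset.prod_univ_sum, Finset.prod_congr rfl fun i _ => hw1 i]
    simp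
  have hone : ∀ m, ∑ x ∈ (Fintype.piFinset A).filter (fun x => BadK G σ K F r b m x), ∏ i, w i (x i) ≤
      K * (4 * (n + 1) * (r + 1) * θ) ^ m := fun m =>
    one_setK (m := m) hθ (fun i a ha => (hAw i a ha).2) hw1 hwθ hLb σ K F hb2
  refine ⟨fun m => ?_, fun hθΛ B g k hg => ?_⟩
  · refine le_trans ?_ (hone m)
    refine Finset.sum_le_sum_of_subset_of_nonneg ?_ fun x hx _ => hWn x (mem_filter.1 hx).1
    intro x hx
    obtain ⟨hx1, c, k, hS, hr, hlt⟩ := mem_filter.1 hx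
    refine mem_filter.2 ⟨hx1, ?_⟩
    by_contra hbad
    have h1 := hnb x hx1 c k m hS hr hbad
    have h2 : qq.eval (n + s + Nat.size k.natAbs) * Λ0 ^ (m + ρ) ≤
        (qq * Polynomial.C (1 + 3 * Λ0)).eval (n + s + Nat.size k.natAbs) * Λ0 ^ (m + ρ) := by
      rw [hev2]
      exact Nat.mul_le_mul_right _ (Nat.le_mul_of_pos_right _ (by omega))
    omega
  · have hmono : ∀ x ∈ Fintype.piFinset A, qq.eval (n + s + Nat.size (k x).natAbs) ≤ qq.eval (n + s + B) :=
      fun x hx => poly_mono qq (by have := (hg x hx).2.2; omega)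
    have hK1 : (1 : ℝ) ≤ K := by
      have hne : (Fintype.piFinset A).Nonempty := by
        rw [Finset.nonempty_iff_ne_empty]
        intro h0
        rw [h0, Finset.sum_empty] at hW1
        exact zero_ne_one hW1
      obtain ⟨x, hx⟩ := hne
      obtain ⟨-, S, hS, -⟩ := (hg x hx).1
      have : 1 ≤ K := by omega
      exact_mod_cast this
    have key := Pool.Agent.H41.RC.avgW (Fintype.piFinset A) (fun x => ∏ i, w i (x i))
      (fun x => (T' (lst (g x) x) (k x) : ℝ)) (fun m x => BadK G σ K F r b m x)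
      (Q := ((qq.eval (n + s + B) * Λ0 ^ ρ : ℕ) : ℝ)) (L := (Λ0 : ℝ)) (Nat.cast_nonneg _) hΛR hWn hW1
      (M := n) (p := fun m => K * (4 * (n + 1) * (r + 1) * θ) ^ m) ?_ ?_ ?_
    · have hgeo := Pool.Agent.H41.RC.geo (L := (Λ0 : ℝ)) (θ := 4 * (n + 1) * (r + 1) * θ) hΛR (by positivity)
        (by linarith) n
      have hgeo2 : 1 + ∑ m ∈ Finset.range n, (Λ0 : ℝ) ^ (m + 1) * (K * (4 * (n + 1) * (r + 1) * θ) ^ m) +
          (Λ0 : ℝ) ^ n * (K * (4 * (n + 1) * (r + 1) * θ) ^ n) ≤ K * (1 + 3 * Λ0) := by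
        have e1 : ∑ m ∈ Finset.range n, (Λ0 : ℝ) ^ (m + 1) * (K * (4 * (n + 1) * (r + 1) * θ) ^ m) =
            K * ∑ m ∈ Finset.range n, (Λ0 : ℝ) ^ (m + 1) * (4 * (n + 1) * (r + 1) * θ) ^ m := by
          rw [Finset.mul_sum]
          exact Finset.sum_congr rfl fun m _ => by ring
        rw [e1]
        have h0 : (0 : ℝ) ≤ K := Nat.cast_nonneg _
        have h1 := mul_le_mul_of_nonneg_left hgeo h0
        linarith
      refine (key.trans (mul_le_mul_of_nonneg_left hgeo2 (Nat.cast_nonneg _))).trans (le_of_eq ?_)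
      rw [hev2]
      push_cast
      ring
    · intro x hx m _ hbad
      obtain ⟨hS, hr, -⟩ := hg x hx
      have h1 : T' (lst (g x) x) (k x) ≤ qq.eval (n + s + B) * Λ0 ^ ρ * Λ0 ^ m := by
        refine (hnb x hx (g x) (k x) m hS hr hbad).trans ?_
        rw [pow_add, mul_assoc (qq.eval (n + s + B)), mul_comm (Λ0 ^ ρ)]
        exact Nat.mul_le_mul_right _ (hmono x hx)
      exact_mod_cast h1
    · intro x hx
      obtain ⟨hS, hr, -⟩ := hg x hx
      have h1 : T' (lst (g x) x) (k x) ≤ qq.eval (n + s + B) * Λ0 ^ ρ * Λ0 ^ n := by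
        refine (hcl x hx (g x) (k x) n hr (Or.inl (kls_card _ _ _))).trans ?_
        rw [pow_add, mul_assoc (qq.eval (n + s + B)), mul_comm (Λ0 ^ ρ)]
        exact Nat.mul_le_mul_right _ (hmono x hx)
      exact_mod_cast h1
    · intro m _
      exact hone m

open Classical in
theorem mainKV : ∃ (c : Prog) (T : List ℕ → ℤ → ℕ) (q : Polynomial ℕ) (Λ : ℕ), 1 ≤ Λ ∧
    (∀ (L : List ℕ) (k : ℤ), Eval c (Pool.Agent.H8.SS.encS L k)
      (bit (decide ((k : ℝ) ≤ (L.map fun a : ℕ => √(a : ℝ)).sum))) (T L k)) ∧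
    ∀ (n r s ρ K : ℕ) (A : Fin n → Finset ℕ) (w : Fin n → ℕ → ℝ) (θ : ℝ), Nat.size r ≤ s →
      (∀ i, ∀ a ∈ A i, Nat.size a ≤ s ∧ 0 ≤ w i a) → (∀ i, ∑ a ∈ A i, w i a = 1) → 0 ≤ θ →
      ∀ V : Finset ℕ, V.card + (Finset.univ.filter fun i => ∃ a ∈ A i \ V,
        θ * ∑ b ∈ A i \ V, w i b < w i a).card ≤ ρ →
      ∀ (σ : Bool) (F : Set (Fin n → ℕ)),
      (∀ m : ℕ, ∑ x ∈ (Fintype.piFinset A).filter (fun x => ∃ (c : Fin n → ℕ) (k : ℤ), Best σ K F c x ∧
          (∀ i, c i ≤ r) ∧ q.eval (n + s + Nat.size k.natAbs) * Λ ^ (m + ρ) < T (lst c x) k),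
        ∏ i, w i (x i) ≤ K * (4 * (n + 1) * (r + 1) * θ) ^ m) ∧
      (8 * Λ * (n + 1) * (r + 1) * θ ≤ 1 →
        ∀ (B : ℕ) (g : (Fin n → ℕ) → Fin n → ℕ) (k : (Fin n → ℕ) → ℤ),
        (∀ x ∈ Fintype.piFinset A, Best σ K F (g x) x ∧ (∀ i, g x i ≤ r) ∧ Nat.size (k x).natAbs ≤ B) →
        ∑ x ∈ Fintype.piFinset A, (∏ i, w i (x i)) * (T (lst (g x) x) (k x) : ℝ) ≤
          ((K * q.eval (n + s + B) * Λ ^ ρ : ℕ) : ℝ)) := by
  obtain ⟨c, T, q, Λ, hΛ, hE, h⟩ := mainKG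
  refine ⟨c, T, q, Λ, hΛ, hE, ?_⟩
  intro n r s ρ K A w θ hrs hAw hw1 hθ V hρ σ F
  have h0 : ∀ i, ∀ a ∈ A i, 0 ≤ w i a := fun i a ha => (hAw i a ha).2
  set E : Finset (Fin n) := Finset.univ.filter fun i => ∃ a ∈ A i \ V,
    θ * ∑ b ∈ A i \ V, w i b < w i a with hEdef
  have hsubp : ∀ H : Finset (Fin n), ∀ x ∈ Fintype.piFinset (AH A V H),
      x ∈ Fintype.piFinset A := fun H x hx => Fintype.mem_piFinset.2 fun i =>
    AH_sub A V H i (Fintype.mem_piFinset.1 hx i)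
  have hC : ∀ H : Finset (Fin n), (∀ i, 0 < mass A w V H i) → _ := fun H hH =>
    h n r s ρ K (AH A V H) (fun i a => w i a / mass A w V H i) θ hrs
      (fun i a ha => ⟨(hAw i a (AH_sub A V H i ha)).1,
        div_nonneg (h0 i a (AH_sub A V H i ha)) (hH i).le⟩)
      (fun i => by
        rw [← Finset.sum_div]
        exact div_self (hH i).ne') hθ
      (Finset.univ.filter fun i => i ∉ H ∧ i ∉ E)
      (by
        intro i hi a ha
        rw [Finset.mem_filter] at hi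
        obtain ⟨-, hi1, hi2⟩ := hi
        have e1 : AH A V H i = A i \ V := if_neg hi1
        have e2 : mass A w V H i = ∑ b ∈ A i \ V, w i b := by
          unfold mass
          rw [e1]
        rw [e1] at ha
        rw [div_le_iff₀ (hH i), e2]
        by_contra hlt
        exact hi2 (Finset.mem_filter.2 ⟨Finset.mem_univ _, a, ha, not_le.1 hlt⟩))
      (by
        intro x hx
        refine le_trans (Finset.card_le_card (t := V.image sf ∪ E.image fun i => sf (x i)) ?_)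
          ((Finset.card_union_le _ _).trans
            ((add_le_add Finset.card_image_le Finset.card_image_le).trans hρ))
        intro d hd
        obtain ⟨i, hi, rfl⟩ := Finset.mem_image.1 hd
        rw [Finset.mem_sdiff, Finset.mem_filter, not_and] at hi
        have hi2 := hi.2 (Finset.mem_univ _)
        rw [Finset.mem_union]
        by_cases hiH : i ∈ H
        · left
          have hxi := hx i
          unfold AH at hxi
          rw [if_pos hiH] at hxi
          exact Finset.mem_image_of_mem _ (Finset.mem_inter.1 hxi).2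
        · right
          refine Finset.mem_image.2 ⟨i, ?_, rfl⟩
          by_contra hiE
          exact hi2 ⟨hiH, hiE⟩) σ F
  refine ⟨fun m => avgP A w V h0 hw1 _ fun H hH => (hC H hH).1 m, fun hΛθ B g k hg => ?_⟩
  refine avgH A w V h0 hw1 _ fun H hH => ?_
  exact (hC H hH).2 hΛθ B g k fun x hx => hg x (hsubp H x hx)

end Pool.Agent.H84.KV
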